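import Pool.Agent.H41.SS.Targets

/-!
# Row NEX of the board `ss_modules`: expansion, the sum is small
(after row NX1 of `rks_modules`, helper78)
-/

set_option autoImplicit false

namespace Pool.Agent.H42.SSM

open Finset Pool.Agent.H97.RK Pool.Agent.H97.RL Pool.Agent.H41.SS

theorem inv_fact_le (s : ℕ) (hs : 1 ≤ s) :
    1 / (s.factorial : ℝ) ≤ (Real.exp 1 / s) ^ s := by
  have hs0 : (0 : ℝ) < s := by exact_mod_cast hs
  have h1 := Real.pow_div_factorial_le_exp (s : ℝ) hs0.le s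
  have h2 : Real.exp (s : ℝ) = Real.exp 1 ^ s := by
    rw [← Real.exp_nat_mul, mul_one]
  rw [h2] at h1
  have h3 : (0 : ℝ) < (s : ℝ) ^ s := pow_pos hs0 s
  rw [div_pow, le_div_iff₀ h3]
  calc 1 / (s.factorial : ℝ) * (s : ℝ) ^ s = (s : ℝ) ^ s / s.factorial := by ring
    _ ≤ Real.exp 1 ^ s := h1

theorem choose_le (n s : ℕ) (hs : 1 ≤ s) :
    (n.choose s : ℝ) ≤ (n * (Real.exp 1 / s)) ^ s := by
  have h1 : (n.choose s : ℝ) ≤ (n : ℝ) ^ s / s.factorial := Nat.choose_le_pow_div s n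
  rw [mul_pow]
  calc (n.choose s : ℝ) ≤ (n : ℝ) ^ s / s.factorial := h1
    _ = (n : ℝ) ^ s * (1 / s.factorial) := by ring
    _ ≤ (n : ℝ) ^ s * (Real.exp 1 / s) ^ s :=
      mul_le_mul_of_nonneg_left (inv_fact_le s hs) (by positivity)

theorem exp_cube_le : Real.exp 1 ^ 3 ≤ 32 := by
  have h1 := Real.exp_one_lt_d9
  have h2 := Real.exp_pos 1
  have h3 : Real.exp 1 ≤ 3 := by linarith
  calc Real.exp 1 ^ 3 ≤ 3 ^ 3 := pow_le_pow_left₀ h2.le h3 3
    _ ≤ 32 := by norm_num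

theorem geom_le (N : ℕ) : ∑ s ∈ Icc 1 N, (1 / 8 : ℝ) ^ s ≤ 1 / 7 := by
  have h1 : ∑ s ∈ Icc 1 N, (1 / 8 : ℝ) ^ s = (1 - (1 / 8) ^ N) / 7 := by
    induction N with
    | zero => simp
    | succ N ih =>
      rw [Finset.sum_Icc_succ_top (by omega), ih]
      ring
  rw [h1]
  have h2 : (0 : ℝ) ≤ (1 / 8) ^ N := by positivity
  linarith

theorem le_three_pow (s : ℕ) : s + 1 ≤ 3 ^ s := by
  induction s with
  | zero => norm_num
  | succ s ih =>
    rw [pow_succ]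
    omega

theorem pow_self_le (n s : ℕ) (hs : 1 ≤ s) (h : 3 * s ≤ n) : ((s : ℝ) / n) ^ s ≤ 1 / n := by
  have hn : (0 : ℝ) < n := by
    have : 0 < n := by omega
    exact_mod_cast this
  obtain ⟨r, rfl⟩ : ∃ r, s = r + 1 := ⟨s - 1, by omega⟩
  rw [div_pow, div_le_div_iff₀ (pow_pos hn _) hn, one_mul]
  have h1 : (r + 1) ^ (r + 1) ≤ n ^ r := by
    calc (r + 1) ^ (r + 1) = (r + 1) ^ r * (r + 1) := pow_succ _ _
      _ ≤ (r + 1) ^ r * 3 ^ r := Nat.mul_le_mul_left _ (le_three_pow r)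
      _ = ((r + 1) * 3) ^ r := (mul_pow _ _ _).symm
      _ ≤ n ^ r := Nat.pow_le_pow_left (by omega) r
  have h2 : (((r + 1 : ℕ) : ℝ)) ^ (r + 1) ≤ (n : ℝ) ^ r := by exact_mod_cast h1
  calc (((r + 1 : ℕ) : ℝ)) ^ (r + 1) * n ≤ (n : ℝ) ^ r * n :=
        mul_le_mul_of_nonneg_right h2 hn.le
    _ = (n : ℝ) ^ (r + 1) := (pow_succ _ _).symm

theorem pf_NEX (hCHO : T_CHO) : T_NEX := by
  refine ⟨14, by norm_num, ?_⟩
  intro k n m D hk hn hm hD
  obtain ⟨i, rfl⟩ : ∃ i, k = i + 6 := ⟨k - 6, by omega⟩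
  have hi : 8 ≤ i := by omega
  have hn1 : 14 ≤ n := by omega
  have hn0 : (0 : ℝ) < n := by
    have : 0 < n := by omega
    exact_mod_cast this
  -- one term
  have hterm : ∀ s ∈ Icc 1 D, (n.choose (2 * s) : ℝ) * m.choose s *
      (2 * s / n : ℝ) ^ ((i + 6) * s) ≤ (1 / n) ^ 3 * (1 / 8) ^ s := by
    intro s hs
    obtain ⟨hs1, hs2⟩ := Finset.mem_Icc.1 hs
    have hs0 : (0 : ℝ) < s := by exact_mod_cast hs1
    set x : ℝ := (s : ℝ) / n with hx
    have hx0 : 0 < x := div_pos hs0 hn0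
    have hx8 : 8 * x ≤ 1 / 8 := by
      have h1 : (64 : ℝ) * s ≤ n := by
        exact_mod_cast (Nat.mul_le_mul_left 64 hs2).trans hD
      rw [hx, ← mul_div_assoc, div_le_iff₀ hn0]
      linarith
    have h3s : 3 * s ≤ n := by
      have := (Nat.mul_le_mul_left 64 hs2).trans hD
      omega
    have hm' : (m : ℝ) ≤ 4 ^ (i + 6) * n := by exact_mod_cast hm
    have hE := Real.exp_pos 1
    have e0 : (2 * s / n : ℝ) = 2 * x := by rw [hx]; ring
    have e1 : (n : ℝ) * (Real.exp 1 / ((2 * s : ℕ) : ℝ)) = Real.exp 1 / (2 * x) := by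
      rw [hx]
      push_cast
      field_simp
    have e2 : (m : ℝ) * (Real.exp 1 / s) ≤ 4 ^ (i + 6) * (Real.exp 1 / x) := by
      calc (m : ℝ) * (Real.exp 1 / s) ≤ 4 ^ (i + 6) * n * (Real.exp 1 / s) :=
            mul_le_mul_of_nonneg_right hm' (by positivity)
        _ = 4 ^ (i + 6) * (Real.exp 1 / x) := by
            rw [hx]
            field_simp
    have hbr : (Real.exp 1 / (2 * x)) ^ 2 * (m * (Real.exp 1 / s)) * (2 * x) ^ (i + 6) ≤
        x ^ 3 / 8 := by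
      have e3 : (8 * x) ^ i ≤ (1 / 8) ^ 8 := by
        calc (8 * x) ^ i ≤ (1 / 8) ^ i := pow_le_pow_left₀ (by positivity) hx8 i
          _ ≤ (1 / 8) ^ 8 := pow_le_pow_of_le_one (by norm_num) (by norm_num) hi
      calc (Real.exp 1 / (2 * x)) ^ 2 * (m * (Real.exp 1 / s)) * (2 * x) ^ (i + 6)
          ≤ (Real.exp 1 / (2 * x)) ^ 2 * (4 ^ (i + 6) * (Real.exp 1 / x)) *
            (2 * x) ^ (i + 6) :=
            mul_le_mul_of_nonneg_right (mul_le_mul_of_nonneg_left e2 (by positivity))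
              (by positivity)
        _ = Real.exp 1 ^ 3 * 65536 * x ^ 3 * (8 * x) ^ i := by
            have e4 : (8 * x) ^ i = 4 ^ i * (2 * x) ^ i := by
              rw [← mul_pow]
              congr 1
              ring
            rw [e4, pow_add, pow_add]
            field_simp
            ring
        _ ≤ 32 * 65536 * x ^ 3 * (1 / 8) ^ 8 := by
            refine mul_le_mul ?_ e3 (by positivity) (by positivity)
            exact mul_le_mul_of_nonneg_right (mul_le_mul_of_nonneg_right exp_cube_le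
              (by norm_num)) (by positivity)
        _ = x ^ 3 / 8 := by
            ring
    have c1 : (n.choose (2 * s) : ℝ) ≤ ((Real.exp 1 / (2 * x)) ^ 2) ^ s := by
      have h := choose_le n (2 * s) (by omega)
      rw [e1] at h
      rw [← pow_mul]
      exact h
    have c2 : (2 * s / n : ℝ) ^ ((i + 6) * s) = ((2 * x) ^ (i + 6)) ^ s := by
      rw [e0, ← pow_mul]
    rw [c2]
    calc (n.choose (2 * s) : ℝ) * m.choose s * ((2 * x) ^ (i + 6)) ^ s
        ≤ ((Real.exp 1 / (2 * x)) ^ 2) ^ s * (m * (Real.exp 1 / s)) ^ s *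
          ((2 * x) ^ (i + 6)) ^ s :=
          mul_le_mul_of_nonneg_right (mul_le_mul c1 (choose_le m s hs1)
            (by positivity) (by positivity)) (by positivity)
      _ = ((Real.exp 1 / (2 * x)) ^ 2 * (m * (Real.exp 1 / s)) * (2 * x) ^ (i + 6)) ^ s := by
          rw [← mul_pow, ← mul_pow]
      _ ≤ (x ^ 3 / 8) ^ s := pow_le_pow_left₀ (by positivity) hbr s
      _ = (x ^ s) ^ 3 * (1 / 8) ^ s := by
          rw [div_eq_mul_one_div, mul_pow, ← pow_mul, ← pow_mul, mul_comm 3 s]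
      _ ≤ (1 / n) ^ 3 * (1 / 8) ^ s :=
          mul_le_mul_of_nonneg_right
            (pow_le_pow_left₀ (by positivity) (pow_self_le n s hs1 h3s) 3) (by positivity)
  refine (Finset.sum_le_sum hterm).trans ?_
  rw [← Finset.mul_sum]
  have h1 : (1 / (n : ℝ)) ^ 3 * ∑ s ∈ Icc 1 D, (1 / 8 : ℝ) ^ s ≤
      (1 / (n : ℝ)) ^ 3 * (1 / 7) :=
    mul_le_mul_of_nonneg_left (geom_le _) (by positivity)
  refine h1.trans ?_
  have hn2 : (14 : ℝ) ≤ n := by exact_mod_cast hn1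
  rw [div_pow, one_pow, div_mul_div_comm, one_mul, div_le_div_iff₀ (by positivity) (by positivity)]
  have h2 : (14 : ℝ) ^ 2 * n ≤ (n : ℝ) ^ 3 := by
    calc (14 : ℝ) ^ 2 * n ≤ (n : ℝ) ^ 2 * n :=
          mul_le_mul_of_nonneg_right (pow_le_pow_left₀ (by norm_num) hn2 2) hn0.le
      _ = (n : ℝ) ^ 3 := by ring
  nlinarith

end Pool.Agent.H42.SSM
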