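import Pool.Agent.H41.SS.Targets

/-!
Rows TRN and INI of the board ss_modules.
-/

set_option autoImplicit false

namespace Pool.Agent.H42.SSM

open Finset Pool.Agent.H97.RK Pool.Agent.H97.RL Pool.Agent.H41.SS

theorem pf_TRN : T_TRN := by
  intro n k m F D b y y' A W J h hy
  have hA : ∀ B : Finset (Fin n), B ⊆ A ∪ W → ∀ c, Al F y' B c ↔ Al F y B c := by
    intro B hB c
    constructor
    · intro ha i hi
      rw [← hy _ (hB hi)]
      exact ha i hi
    · intro ha i hi
      rw [hy _ (hB hi)]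
      exact ha i hi
  have hS : ∀ c, Sa F y (A ∪ W) c → Sa F y' (A ∪ W) c := by
    rintro c ⟨i, hi, he⟩
    exact ⟨i, hi, by rw [hy _ hi]; exact he⟩
  refine ⟨h.mem, fun c hc => ?_, fun c hc => hS c (h.sat c hc), fun S hS' hc => ?_, h.lt, h.crd⟩
  · exact (hA _ (fun u hu => Finset.mem_union_left _ (Finset.mem_sdiff.1 hu).1) c).2 (h.fls c hc)
  · exact h.inv S hS' fun c hcS => (hA _ (Finset.Subset.refl _) c).1 (hc c hcS)

theorem pf_INI : T_INI := by
  intro n k m F D hD hE y
  refine ⟨?_, ?_, ?_, ?_, ?_, ?_⟩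
  · intro c hc
    exact absurd hc (Finset.notMem_empty c)
  · intro c hc
    exact absurd hc (Finset.notMem_empty c)
  · intro c hc
    exact absurd hc (Finset.notMem_empty c)
  · intro S hS _
    rw [Finset.union_empty, Finset.sdiff_empty]
    exact hE S hS
  · rw [Finset.card_empty]
    exact hD
  · simp

end Pool.Agent.H42.SSM
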